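import Pool.Agent.H37.CPX.Targets

/-!
# Cutting planes of any depth, row `PART` (helper98): the partition lemma
-/

namespace Pool.Agent.H98.CPX

open Finset Pool.Agent.H37.CPX

variable {N m k w0 : ℕ}

/-- the root state -/
def rst (N m : ℕ) : St N m := ⟨∅, ∅, 0, 0, 0, 0⟩

theorem rst_T (s : Sy N m k w0) : (rst N m).T s = ∅ := by
  simp [St.T, rst, Sy.Nb]

theorem rst_Ok (s : Sy N m k w0) (z : ℕ) : (rst N m).Ok s z := by
  refine ⟨by simp [rst], by simp [rst, Sy.Nb], by simp [rst], ?_, by simp [rst]⟩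
  intro _ J1 _ _ h3
  rw [rst_T, sdiff_empty]
  have h := s.exp J1 (by omega)
  have h' : (k + 3) * J1.card ≤ (k + 4) * J1.card := Nat.mul_le_mul_right _ (by omega)
  exact h'.trans h

theorem cardX (N q : ℕ) (Xs : Finset (PX N q)) : (Xs.card : ℝ) ≤ (q : ℝ) ^ N := by
  have h : Xs.card ≤ Fintype.card (PX N q) := Finset.card_le_univ Xs
  have h2 : Fintype.card (PX N q) = q ^ N := by simp [PX]
  rw [h2] at h
  exact_mod_cast h

theorem cardY (N q : ℕ) (Ys : Finset (PY N q)) : (Ys.card : ℝ) ≤ ((2 : ℝ) ^ q) ^ N := by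
  have h : Ys.card ≤ Fintype.card (PY N q) := Finset.card_le_univ Ys
  have h2 : Fintype.card (PY N q) = (2 ^ q) ^ N := by
    simp [PY, ZMod.card]
  rw [h2] at h
  exact_mod_cast h

theorem aux (z N : ℕ) (a b c e : ℝ) (hb : 0 ≤ b) (hab : b ^ 2 = a) (hc : c ≤ a ^ N)
    (he : e ≤ (1 / 2) ^ z * b ^ N * Real.sqrt c) : e * 2 ^ z ≤ a ^ N := by
  have hbN : 0 ≤ b ^ N := pow_nonneg hb N
  have h0 : (b ^ N) ^ 2 = a ^ N := by rw [← hab, ← pow_mul, ← pow_mul, mul_comm]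
  have h1 : Real.sqrt c ≤ b ^ N := by
    apply Real.sqrt_le_iff.2
    refine ⟨hbN, ?_⟩
    rw [h0]; exact hc
  have h2 : ((1 : ℝ) / 2) ^ z * 2 ^ z = 1 := by
    rw [← mul_pow]; norm_num
  calc e * 2 ^ z ≤ ((1 / 2) ^ z * b ^ N * Real.sqrt c) * 2 ^ z :=
        mul_le_mul_of_nonneg_right he (by positivity)
    _ = ((1 / 2) ^ z * 2 ^ z) * (b ^ N * Real.sqrt c) := by ring
    _ = b ^ N * Real.sqrt c := by rw [h2, one_mul]
    _ ≤ b ^ N * b ^ N := mul_le_mul_of_nonneg_left h1 hbN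
    _ = a ^ N := by rw [← h0]; ring

theorem kX0 (N P z : ℕ) : kX N P z 0 0 0 0 0 = (1 / 2) ^ z * ((P : ℝ) ^ 8) ^ N := by
  unfold kX
  simp only [pow_zero, mul_one, Nat.sub_zero]

theorem kY0 (N P z : ℕ) : kY N P z 0 0 0 0 0 = (1 / 2) ^ z * (bb P) ^ N := by
  unfold kY
  simp only [pow_zero, mul_one, Nat.sub_zero]

theorem mM0 (N m k w0 P z : ℕ) : mM N m k w0 P z 0 0 0 = MM N m k w0 P z := by
  unfold mM
  simp only [pow_zero, mul_one, Nat.add_zero]

theorem pf_PART (hR : S_REC) (hW : S_WID) : S_PART := by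
  classical
  intro N m k w0 P z lam s u w Xs Ys hn hal
  have hT : (rst N m).T s = ∅ := rst_T s
  have hflat : ∀ {Q : Type} (A : Finset (Fin N → Q)), Flat (∅ : Finset (Fin N)) A := by
    intro Q A x _ x' _ i hi
    exact absurd hi (Finset.notMem_empty i)
  have h := hR N m k w0 P z lam s u w Xs Ys hn hal ((rst N m).mea s z + 1) (rst N m)
    (rst_Ok s z) (Nat.lt_succ_self _) Xs (Finset.Subset.refl _) (by rw [hT]; exact hflat Xs)
  have hkx : (rst N m).kx s P z = (1 / 2) ^ z * ((P : ℝ) ^ 8) ^ N := by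
    have : (rst N m).kx s P z = kX N P z 0 0 0 0 0 := by
      unfold St.kx
      rw [hT, Finset.card_empty]
      rfl
    rw [this, kX0]
  have hky : (rst N m).ky s P z = (1 / 2) ^ z * (bb P) ^ N := by
    have : (rst N m).ky s P z = kY N P z 0 0 0 0 0 := by
      unfold St.ky
      rw [hT, Finset.card_empty]
      rfl
    rw [this, kY0]
  have hmm : (rst N m).mm s P z = MM N m k w0 P z := by
    have : (rst N m).mm s P z = mM N m k w0 P z 0 0 0 := by
      unfold St.mm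
      rw [hT, Finset.card_empty]
      rfl
    rw [this, mM0]
  unfold PPs at h
  rw [hT, hkx, hky, hmm] at h
  obtain ⟨E, hE, hEc, h2⟩ := h
  obtain ⟨E', hE', hEc', h3⟩ := h2 Ys ⟨Finset.Subset.refl _, hflat Ys⟩
  obtain ⟨hbb, -, -, hbp, -⟩ := hW N m k w0 P z 0 0 0 0 0 0 0 hn.hN hn.hz hn.hP hn.hPe le_rfl
    (Nat.zero_le _)
  refine ⟨E, E', ?_, ?_, ?_⟩
  · refine aux z N ((P : ℝ) ^ 16) ((P : ℝ) ^ 8) Xs.card E.card (by positivity)
      (by rw [← pow_mul]) ?_ hEc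
    have hc := cardX N (P ^ 16) Xs
    rwa [Nat.cast_pow] at hc
  · exact aux z N ((2 : ℝ) ^ (P ^ 16)) (bb P) Ys.card E'.card hbp.le hbb (cardY N (P ^ 16) Ys)
      hEc'
  · intro F hF G hG hFG
    have hF1 : F ⊆ Xs := fun x hx => (Finset.mem_sdiff.1 (hF hx)).1
    have hF2 : Disjoint F E := Finset.disjoint_left.2 fun x hx => (Finset.mem_sdiff.1 (hF hx)).2
    have hG1 : G ⊆ Ys := fun x hx => (Finset.mem_sdiff.1 (hG hx)).1
    have hG2 : Disjoint G E' := Finset.disjoint_left.2 fun x hx => (Finset.mem_sdiff.1 (hG hx)).2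
    exact h3 F hF1 G hG1 hF2 hG2 hFG

end Pool.Agent.H98.CPX
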